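import Pool.Agent.H18.KC.Stmts

/-!
# Board `kc`, module UPB: linearity and upper bound for the iterated raising operator
-/

set_option autoImplicit false

open Finset

namespace Pool.Agent.H46.KC.UPB

open Pool.Agent.H18.KC

variable {α V : Type} [DecidableEq α] [NormedAddCommGroup V] [InnerProductSpace ℝ V]
  (ρ : Equiv.Perm α →* (V →ₗ[ℝ] V)) (x : ℕ → α)

theorem up_sub (j : ℕ) (v w : V) : Up ρ x j (v - w) = Up ρ x j v - Up ρ x j w := by
  unfold Up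
  simp only [map_sub, Finset.sum_sub_distrib]
  abel

theorem up_norm (hρ : ∀ σ v, ‖ρ σ v‖ = ‖v‖) (j : ℕ) (v : V) :
    ‖Up ρ x j v‖ ≤ ((j : ℝ) + 1) * ‖v‖ := by
  unfold Up
  have h1 : ‖∑ i ∈ range j, ρ (Equiv.swap (x i) (x j)) v‖ ≤ (j : ℝ) * ‖v‖ := by
    refine (norm_sum_le _ _).trans ?_
    simp [hρ]
  calc ‖v + ∑ i ∈ range j, ρ (Equiv.swap (x i) (x j)) v‖
      ≤ ‖v‖ + ‖∑ i ∈ range j, ρ (Equiv.swap (x i) (x j)) v‖ := norm_add_le _ _
    _ ≤ ‖v‖ + (j : ℝ) * ‖v‖ := by linarith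
    _ = ((j : ℝ) + 1) * ‖v‖ := by ring

theorem upb_thm : UPBStmt := by
  intro α V _ _ _ ρ x m k v w hρ
  induction k with
  | zero => exact ⟨rfl, le_of_eq rfl⟩
  | succ k ih =>
    obtain ⟨h1, h2⟩ := ih
    constructor
    · change Up ρ x (m + k) (UpN ρ x m k (v - w)) =
        Up ρ x (m + k) (UpN ρ x m k v) - Up ρ x (m + k) (UpN ρ x m k w)
      rw [h1, up_sub]
    · change (Nat.factorial m : ℝ) * ‖Up ρ x (m + k) (UpN ρ x m k v)‖ ≤ _
      have h3 := up_norm ρ x hρ (m + k) (UpN ρ x m k v)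
      have h4 : (0:ℝ) ≤ Nat.factorial m := Nat.cast_nonneg _
      have h5 : (Nat.factorial (m + (k + 1)) : ℝ) =
          (((m + k : ℕ) : ℝ) + 1) * Nat.factorial (m + k) := by
        rw [← add_assoc, Nat.factorial_succ]
        push_cast
        ring
      rw [h5]
      calc (Nat.factorial m : ℝ) * ‖Up ρ x (m + k) (UpN ρ x m k v)‖
          ≤ (Nat.factorial m : ℝ) * ((((m + k : ℕ) : ℝ) + 1) * ‖UpN ρ x m k v‖) :=
            mul_le_mul_of_nonneg_left h3 h4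
        _ = (((m + k : ℕ) : ℝ) + 1) * ((Nat.factorial m : ℝ) * ‖UpN ρ x m k v‖) := by ring
        _ ≤ (((m + k : ℕ) : ℝ) + 1) * ((Nat.factorial (m + k) : ℝ) * ‖v‖) :=
            mul_le_mul_of_nonneg_left h2 (by positivity)
        _ = (((m + k : ℕ) : ℝ) + 1) * (Nat.factorial (m + k) : ℝ) * ‖v‖ := by ring

end Pool.Agent.H46.KC.UPB
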