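import Pool.Agent.H18.KC.Stmts

/-!
# Board `kc`, module WBD: bounds for the norm of the tensors `W`
-/

set_option autoImplicit false

open Finset

namespace Pool.Agent.H46.KC.WBD

open Pool.Agent.H18.KC

theorem split {ι : Type} [Fintype ι] (N m r : ℕ) (h : m + r = N)
    (G : (Fin m → ι) → (Fin r → ι) → ℝ) :
    ∑ I : Fin N → ι, G (fun i => I ⟨i, by omega⟩) (fun j => I ⟨m + j, by omega⟩) =
      ∑ b : Fin r → ι, ∑ a : Fin m → ι, G a b := by
  subst h
  rw [Finset.sum_comm, ← Fintype.sum_prod_type']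
  refine (Fintype.sum_equiv (Fin.appendEquiv m r) _ _ ?_).symm
  rintro ⟨a, b⟩
  simp only [Fin.appendEquiv]
  congr 1
  · funext i
    exact (Fin.append_left a b i).symm
  · funext j
    exact (Fin.append_right a b j).symm

variable {ι E : Type} [Fintype ι] [NormedAddCommGroup E] [InnerProductSpace ℝ E] {t Q : ℝ}

theorem inner_hs (D : Dat ι E t Q) (h0 : E) (h : inner ℝ D.e h0 = 0) (k : ℕ) (I : Fin k → ι) :
    inner ℝ D.e (D.hs h0 k I) = 0 := by
  cases k with
  | zero => exact h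
  | succ k => exact D.inner_e_A _ _

theorem norm_W (D : Dat ι E t Q) (h0 : E) (N m : ℕ) (hm : m ≤ N) :
    ‖D.W h0 N m‖ ^ 2 = ∑ b : Fin (N - m) → ι, ∑ a : Fin m → ι,
      (D.P m a (D.hs h0 (N - m) b)) ^ 2 := by
  rw [EuclideanSpace.norm_sq_eq,
    ← split N m (N - m) (by omega) (fun a b => (D.P m a (D.hs h0 (N - m) b)) ^ 2)]
  refine Finset.sum_congr rfl fun I _ => ?_
  simp only [Dat.W, dif_pos hm, Real.norm_eq_abs, sq_abs]
  rfl

theorem wbd_thm : WBDStmt := by
  intro ι E _ _ _ t Q D h0 h k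
  refine ⟨?_, fun m hm => ?_⟩
  · rw [norm_W D h0 (k + 1) 1 (by omega)]
    change ∑ b : Fin k → ι, ∑ a : Fin 1 → ι, (D.P 1 a (D.hs h0 k b)) ^ 2 = _
    rw [Finset.sum_comm]
    refine Fintype.sum_equiv (Equiv.funUnique (Fin 1) ι) _ _ fun a => ?_
    refine Finset.sum_congr rfl fun b _ => ?_
    congr 3
    funext i
    rw [Subsingleton.elim i default]
    rfl
  · rw [norm_W D h0 (k + 1) (m + 1) (by omega)]
    have hV : D.V h0 (k - m) = D.V h0 (k + 1 - (m + 1)) := by
      congr 1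
      omega
    rw [hV, Dat.V, Finset.mul_sum]
    exact Finset.sum_le_sum fun b _ => D.Pbd m _ (inner_hs D h0 h _ b)

end Pool.Agent.H46.KC.WBD
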